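import Pool.Agent.N84.MD.TT
import Pool.Agent.N625.PT.H

/-!
# The asymptotic formula for ALL prime triples with distances near the first digits of almost every pair of real numbers

For almost every point `(ξ_1, ..., ξ_s)` of the cube `[0, 1) ^ s` (`s = 2` for triples), and for all large `k`, the formula of
Hardy and Littlewood holds for the primes `p, p + a_1, ..., p + a_s`, `p ≤ N`, for ALL the integers `a_i` at a distance of
at most `k ^ W` from `c_i + κ_i [b ^ k ξ_i]` and for ALL `N` between `b ^ k / C` and `k ^ K b ^ k`, for all the parameters at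
once. The same holds for almost all points of much smaller sets, with respect to singular measures: it is enough that
the first `k` digits of the `ξ_i` are independent for different `i` and have exchangeable blocks of digits (Bernoulli and
Markov measures, for example almost every point of the square of the Cantor set with respect to the Cantor measure), and
in general `x_k = ([b ^ k ξ_1], ..., [b ^ k ξ_s])` can be replaced by any sequence of random vectors of integers with such laws.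

The proof combines helper625's theorem for random integers with exchangeable blocks of digits
(`Pool.Agent.N625.PT.flex_tcls`) and the second moment theorem of the starting files (`Pool.Agent.Y885.tl_tuples`) at all the
scales `r 2 ^ j` with a comparison between them, and the lemma of Borel and Cantelli.
-/

set_option autoImplicit false

open Filter MeasureTheory Finset
open scoped ENNReal

namespace Pool.Agent.Results.MP_dddec0_nt.AlmostEveryRealTuple

/-- the number of the classes `r` modulo `p` such that `p` divides one of `r, r + a 1, ..., r + a s` -/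
def nu {s : ℕ} (a : Fin s → ℕ) (p : ℕ) : ℕ := ((range p).filter (fun r => p ∣ r ∨ ∃ i, (p : ℤ) ∣ (r : ℤ) + (a i : ℤ))).card

/-- the partial products of the singular series -/
noncomputable def sing {s : ℕ} (a : Fin s → ℕ) (z : ℕ) : ℝ :=
  ∏ p ∈ (Icc 1 z).filter Nat.Prime, (1 - (nu a p : ℝ) / p) / (1 - 1 / (p : ℝ)) ^ (s + 1)

/-- the polynomial `r (r + a 1) ... (r + a s)` has no fixed prime divisor -/
def Admissible {s : ℕ} (a : Fin s → ℕ) : Prop :=
  ∀ p : ℕ, p.Prime → ∃ r : ℤ, ¬ (p : ℤ) ∣ r ∧ ∀ i, ¬ (p : ℤ) ∣ r + (a i : ℤ)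

/-- the number of the primes `p ≤ N` such that all `p + a i` are primes -/
def count {s : ℕ} (a : Fin s → ℕ) (N : ℕ) : ℕ :=
  ((Icc 1 N).filter (fun p : ℕ => p.Prime ∧ ∀ i, (p + a i).Prime)).card

/-- The singular series converges, and if the shifts are admissible then its sum `S` is positive and `S N / log ^ (s + 1) N`
is the number of the primes `p ≤ N` such that all `p + a i` are primes, up to a relative error of at most `ε`. -/
def Law {s : ℕ} (ε : ℝ) (N : ℕ) (a : Fin s → ℕ) : Prop :=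
  ∃ S : ℝ, Tendsto (fun z => sing a z) atTop (nhds S) ∧ (Admissible a → 0 < S ∧
    |(count a N : ℝ) - S * (N / Real.log N ^ (s + 1))| ≤ ε * (S * (N / Real.log N ^ (s + 1))))

/-- For all integers `κ i ≠ 0`, `C`, `K`, `W` and `ε > 0` and for all large `k`: for all `N` with `b ^ k ≤ C N` and
`N ≤ k ^ K b ^ k`, all `a` with `|a i - (c_k i + κ i x_k i)| ≤ k ^ W` for all `i` have the property `Law ε N a`. -/
def Always {s : ℕ} (b : ℕ) (c : ℕ → Fin s → ℤ) (x : ℕ → Fin s → ℕ) : Prop :=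
  ∀ (κ : Fin s → ℤ) (C K W : ℕ) (ε : ℝ), (∀ i, κ i ≠ 0) → 0 < ε → ∀ᶠ k : ℕ in atTop, ∀ N : ℕ, b ^ k ≤ C * N →
    N ≤ k ^ K * b ^ k → ∀ a : Fin s → ℕ, (∀ i, |(a i : ℤ) - (c k i + κ i * x k i)| ≤ (k : ℤ) ^ W) → Law ε N a

/-- The probability, for the distribution `μ` on the words of `k` digits (the integers `v < b ^ k`), that the word begins with
the `i` digits of `u < b ^ i`. -/
noncomputable def begins (b k : ℕ) (μ : ℕ → ℝ) (i u : ℕ) : ℝ := ∑ w ∈ range (b ^ (k - i)), μ (u * b ^ (k - i) + w)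

/-- `p` is a probability on the words of `k` digits in base `b`, read as integers `v < b ^ k`. There is another probability
`μ` with `p ≤ k ^ T μ` such that after every beginning `u` two different blocks `a`, `a'` of `L` digits can be exchanged:
`p (u a w) = r p (u a' w)` for all endings `w`, with a factor `r` between `η` and `1 / η` which does not depend on `w`; and
given the beginning `u`, each of the two blocks comes next with a probability of at least `η` in the distribution `μ`.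
(For `T = 0` one has `μ = p`. For the uniform distribution on a set of words `r` is `1`.) -/
structure Exchangeable (b L : ℕ) (η : ℝ) (T k : ℕ) (p : ℕ → ℝ) : Prop where
  nonneg : ∀ v, 0 ≤ p v
  sum : ∑ v ∈ range (b ^ k), p v = 1
  dominated : ∃ μ : ℕ → ℝ, (∀ v, 0 ≤ μ v) ∧ ∑ v ∈ range (b ^ k), μ v = 1 ∧ (∀ v < b ^ k, p v ≤ (k : ℝ) ^ T * μ v) ∧
    ∀ i u : ℕ, i + L ≤ k → u < b ^ i → ∃ (a a' : ℕ) (r : ℝ), a < a' ∧ a' < b ^ L ∧ η ≤ r ∧ η * r ≤ 1 ∧
      (∀ w < b ^ (k - (i + L)), p ((b ^ L * u + a) * b ^ (k - (i + L)) + w) = r * p ((b ^ L * u + a') * b ^ (k - (i + L)) + w)) ∧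
      η * begins b k μ i u ≤ begins b k μ (i + L) (b ^ L * u + a) ∧
      η * begins b k μ i u ≤ begins b k μ (i + L) (b ^ L * u + a')

lemma begins_sum (b k : ℕ) (μ : ℕ → ℝ) (i u : ℕ) (hi : i < k) :
    ∑ a ∈ range b, begins b k μ (i + 1) (b * u + a) = begins b k μ i u := by
  unfold begins
  obtain ⟨n, hn⟩ : ∃ n, k - i = n + 1 := ⟨k - i - 1, by omega⟩
  have h1 : k - (i + 1) = n := by omega
  rw [h1, hn, pow_succ, mul_comm (b ^ n) b, Pool.Agent.N625.PT.sum_blocks b (b ^ n)]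
  apply sum_congr rfl
  intro a _
  apply sum_congr rfl
  intro w _
  congr 1
  ring

lemma flex_of {b L T k : ℕ} {η : ℝ} {p : ℕ → ℝ} (hp : Exchangeable b L η T k p) : Pool.Agent.N625.PT.Flex b L η T k p := by
  obtain ⟨h0, h1, μ, m0, m1, m2, m3⟩ := hp
  have hT : (0 : ℝ) ≤ (k : ℝ) ^ T := by positivity
  have hb0 : ∀ i u, 0 ≤ begins b k μ i u := fun i u => sum_nonneg fun w _ => m0 _
  refine ⟨h0, h1, fun i u => (k : ℝ) ^ T * begins b k μ i u, fun i u => mul_nonneg hT (hb0 i u), ?_, ?_, ?_, ?_⟩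
  · intro v hv
    refine (m2 v hv).trans (le_of_eq ?_)
    unfold begins
    simp
  · intro i hi u _
    simp only
    rw [← mul_sum, begins_sum b k μ i u hi]
  · simp only
    have : begins b k μ 0 0 = 1 := by
      unfold begins
      simpa using m1
    rw [this, mul_one]
  · intro i u hi hu
    obtain ⟨a, a', r, q1, q2, q3, q4, q5, q6, q7⟩ := m3 i u hi hu
    refine ⟨a, a', r, q1, q2, q3, q4, q5, ?_, ?_⟩
    · simp only
      calc η * ((k : ℝ) ^ T * begins b k μ i u) = (k : ℝ) ^ T * (η * begins b k μ i u) := by ring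
        _ ≤ _ := mul_le_mul_of_nonneg_left q6 hT
    · simp only
      calc η * ((k : ℝ) ^ T * begins b k μ i u) = (k : ℝ) ^ T * (η * begins b k μ i u) := by ring
        _ ≤ _ := mul_le_mul_of_nonneg_left q7 hT

/-- The random integers `x 1, ..., x s` are smaller than `b ^ k`, and their joint law is at most `k ^ T₁` times a product of laws
with exchangeable blocks of digits. (For `T₁ = 0`: they are independent, with such laws.) -/
def JointLaw {Ω : Type} [MeasurableSpace Ω] (ν : Measure Ω) {s : ℕ} (b L : ℕ) (η : ℝ) (T₀ T₁ k : ℕ) (x : Ω → Fin s → ℕ) :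
    Prop :=
  (∀ ω i, x ω i < b ^ k) ∧ ∃ p : Fin s → ℕ → ℝ, (∀ i, Exchangeable b L η T₀ k (p i)) ∧ ∀ v : Fin s → ℕ, (∀ i, v i < b ^ k) →
    ν {ω | ∀ i, x ω i = v i} ≤ ENNReal.ofReal ((k : ℝ) ^ T₁ * ∏ i, p i (v i))

/-- the uniform distribution has exchangeable digits -/
theorem exch_unif (b : ℕ) (hb : 2 ≤ b) (k : ℕ) (p : ℕ → ℝ) (hp : ∀ v < b ^ k, p v = 1 / (b : ℝ) ^ k)
    (hp0 : ∀ v, 0 ≤ p v) : Exchangeable b 1 (1 / b) 0 k p := by
  have hb0 : (0 : ℝ) < b := by exact_mod_cast (by omega : 0 < b)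
  have hbk : (0 : ℝ) < (b : ℝ) ^ k := by positivity
  have hsum : ∀ f : ℕ → ℝ, (∀ v < b ^ k, f v = 1 / (b : ℝ) ^ k) → ∑ v ∈ range (b ^ k), f v = 1 := by
    intro f hf
    rw [sum_congr rfl fun v hv => hf v (mem_range.1 hv), sum_const, card_range, nsmul_eq_mul]
    push_cast
    field_simp
  refine ⟨hp0, hsum p hp, fun _ => 1 / (b : ℝ) ^ k, fun _ => by positivity, hsum _ fun _ _ => rfl, ?_, ?_⟩
  · intro v hv
    rw [hp v hv, pow_zero, one_mul]
  · intro i u hi hu
    obtain ⟨n, hn⟩ : ∃ n, k = i + 1 + n := ⟨k - (i + 1), by omega⟩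
    have e1 : k - (i + 1) = n := by omega
    have e2 : k - i = n + 1 := by omega
    have hlt : ∀ a, a < b → ∀ w, w < b ^ n → (b ^ 1 * u + a) * b ^ n + w < b ^ k := by
      intro a ha w hw
      have h1 : b ^ 1 * u + a + 1 ≤ b ^ (i + 1) := by
        rw [pow_one, pow_succ]
        nlinarith
      calc (b ^ 1 * u + a) * b ^ n + w < (b ^ 1 * u + a) * b ^ n + b ^ n := by omega
        _ = (b ^ 1 * u + a + 1) * b ^ n := by ring
        _ ≤ b ^ (i + 1) * b ^ n := Nat.mul_le_mul_right _ h1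
        _ = b ^ k := by rw [hn, pow_add b (i + 1) n]
    have hbeg : ∀ j u', begins b k (fun _ => 1 / (b : ℝ) ^ k) j u' = (b : ℝ) ^ (k - j) * (1 / (b : ℝ) ^ k) := by
      intro j u'
      unfold begins
      rw [sum_const, card_range, nsmul_eq_mul]
      push_cast
      rfl
    refine ⟨0, 1, 1, one_pos, by rw [pow_one]; omega, ?_, ?_, ?_, ?_, ?_⟩
    · rw [div_le_one hb0]
      exact_mod_cast (by omega : 1 ≤ b)
    · rw [mul_one, div_le_one hb0]
      exact_mod_cast (by omega : 1 ≤ b)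
    · intro w hw
      rw [e1] at hw ⊢
      rw [hp _ (hlt 0 (by omega) w hw), hp _ (hlt 1 (by omega) w hw), one_mul]
    · rw [hbeg, hbeg, e1, e2, pow_succ]
      apply le_of_eq
      field_simp
    · rw [hbeg, hbeg, e1, e2, pow_succ]
      apply le_of_eq
      field_simp

/-- Let `s ≥ 1` (`s = 2` for triples), `b ≥ 2` and let `c_k i` be integers with `|c_k i| ≤ B b ^ k`.

**(1)** Let `x_k = x_k(ω)` be random vectors of integers on a probability space which for all large `k` satisfy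
`JointLaw ν b L η T₀ T₁ k x_k`. Then almost surely `Always b c x`.

**(2)** Almost every point `ξ` of `[0, 1) ^ s` has the property `Always b c x` with `x_k i = [b ^ k ξ i]`. -/
theorem result (s : ℕ) (hs : 1 ≤ s) (b : ℕ) (hb : 2 ≤ b) (B : ℕ) (c : ℕ → Fin s → ℤ)
    (hc : ∀ k i, |c k i| ≤ B * (b : ℤ) ^ k) :
    (∀ L : ℕ, 1 ≤ L → ∀ η : ℝ, 0 < η → η ≤ 1 → ∀ (T₀ T₁ : ℕ) (Ω : Type) [MeasurableSpace Ω] (ν : Measure Ω)
      [IsProbabilityMeasure ν] (x : ℕ → Ω → Fin s → ℕ), (∀ᶠ k : ℕ in atTop, JointLaw ν b L η T₀ T₁ k (x k)) →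
        ∀ᵐ ω ∂ν, Always b c fun k => x k ω) ∧
    (∀ᵐ ξ : Fin s → ℝ, (∀ i, 0 ≤ ξ i ∧ ξ i < 1) → Always b c fun k i => ⌊(b : ℝ) ^ k * ξ i⌋₊) := by
  classical
  have main : ∀ L : ℕ, 1 ≤ L → ∀ η : ℝ, 0 < η → η ≤ 1 → ∀ (T₀ T₁ : ℕ) (Ω : Type) [MeasurableSpace Ω] (ν : Measure Ω)
      [IsProbabilityMeasure ν] (x : ℕ → Ω → Fin s → ℕ), (∀ᶠ k : ℕ in atTop, JointLaw ν b L η T₀ T₁ k (x k)) →
        ∀ᵐ ω ∂ν, Always b c fun k => x k ω := by
    intro L hL η hη0 hη1 T₀ T₁ Ω _ ν _ x hlaw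
    have key : ∀ (κ : Fin s → ℤ) (C K W m : ℕ), (∀ i, κ i ≠ 0) → ∀ᵐ ω ∂ν, ∀ᶠ k : ℕ in atTop, ∀ N : ℕ, b ^ k ≤ C * N →
        N ≤ k ^ K * b ^ k → ∀ a : Fin s → ℕ, (∀ i, |(a i : ℤ) - (c k i + κ i * x k ω i)| ≤ (k : ℤ) ^ W) →
          Pool.Agent.N84.MD.TT.Law (1 / ((m : ℝ) + 1)) N a := by
      intro κ C K W m hκ
      obtain ⟨k₀, h0⟩ := Pool.Agent.N84.MD.TT.all_scales s hs hb κ (fun _ => Pool.Agent.N625.PT.Flex b L η T₀)
        (fun i => Pool.Agent.N625.PT.flex_tcls b L hb hL η hη0 hη1 T₀ (κ i) (hκ i)) B C K W (T₁ + 2) (1 / ((m : ℝ) + 1))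
        (by positivity) (by
          rw [div_le_one (by positivity)]
          linarith [(Nat.cast_nonneg m : (0 : ℝ) ≤ m)])
      obtain ⟨k₁, h1⟩ := eventually_atTop.1 hlaw
      have h2 := Pool.Agent.N84.MD.bc ν (fun k => {ω | ¬ ∀ N : ℕ, b ^ k ≤ C * N →
        N ≤ k ^ K * b ^ k → ∀ a : Fin s → ℕ, (∀ i, |(a i : ℤ) - (c k i + κ i * x k ω i)| ≤ (k : ℤ) ^ W) →
          Pool.Agent.N84.MD.TT.Law (1 / ((m : ℝ) + 1)) N a})
        ⟨max (max k₀ k₁) 1, fun k hk => by
          have hk0 : k₀ ≤ k := ((le_max_left _ _).trans (le_max_left _ _)).trans hk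
          have hk1 : k₁ ≤ k := ((le_max_right _ _).trans (le_max_left _ _)).trans hk
          have hk2 : 1 ≤ k := (le_max_right _ _).trans hk
          have hk3 : (0 : ℝ) < k := by exact_mod_cast hk2
          obtain ⟨hx, p, hp, hj⟩ := h1 k hk1
          have h3 := h0 k hk0 p (fun i => flex_of (hp i)) (c k) (hc k)
          refine (Pool.Agent.N84.MD.TT.ev_le ν s (b ^ k) (x k) hx (fun v => ∀ N : ℕ, b ^ k ≤ C * N →
            N ≤ k ^ K * b ^ k → ∀ a : Fin s → ℕ, (∀ i, |(a i : ℤ) - (c k i + κ i * v i)| ≤ (k : ℤ) ^ W) →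
              Pool.Agent.N84.MD.TT.Law (1 / ((m : ℝ) + 1)) N a) p (fun i v => (hp i).nonneg v) ((k : ℝ) ^ T₁)
              (by positivity) hj).trans (ENNReal.ofReal_le_ofReal ?_)
          refine (mul_le_mul_of_nonneg_left (le_trans (le_of_eq (sum_congr rfl fun v _ => ?_)) h3)
            (by positivity)).trans (le_of_eq ?_)
          · split_ifs <;> rfl
          · rw [pow_add]
            field_simp⟩
      filter_upwards [h2] with ω hω
      filter_upwards [hω] with k h3
      by_contra h4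
      exact h3 h4
    have hall : ∀ᵐ ω ∂ν, ∀ (κ : Fin s → ℤ) (C K W m : ℕ), (∀ i, κ i ≠ 0) → ∀ᶠ k : ℕ in atTop, ∀ N : ℕ, b ^ k ≤ C * N →
        N ≤ k ^ K * b ^ k → ∀ a : Fin s → ℕ, (∀ i, |(a i : ℤ) - (c k i + κ i * x k ω i)| ≤ (k : ℤ) ^ W) →
          Pool.Agent.N84.MD.TT.Law (1 / ((m : ℝ) + 1)) N a := by
      refine ae_all_iff.2 fun κ => ae_all_iff.2 fun C => ae_all_iff.2 fun K => ae_all_iff.2 fun W =>
        ae_all_iff.2 fun m => ?_
      by_cases hκ : ∀ i, κ i ≠ 0
      · filter_upwards [key κ C K W m hκ] with ω hω _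
        exact hω
      · exact Filter.Eventually.of_forall fun ω h => absurd h hκ
    filter_upwards [hall] with ω hω κ C K W ε hκ hε
    obtain ⟨m, hm⟩ := exists_nat_one_div_lt hε
    filter_upwards [hω κ C K W m hκ] with k hk N hN1 hN2 a ha
    exact Pool.Agent.N84.MD.TT.law_mono (hk N hN1 hN2 a ha) hm.le
  refine ⟨main, ?_⟩
  have hb0 : (0 : ℝ) < b := by exact_mod_cast (by omega : 0 < b)
  have hprob : IsProbabilityMeasure (volume.restrict (Set.Ico (0 : ℝ) 1)) :=
    ⟨by rw [Measure.restrict_apply_univ, Real.volume_Ico]; norm_num⟩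
  have hpos : ∀ k : ℕ, 0 < b ^ k := fun k => Nat.pow_pos (by omega)
  have h1 := main 1 le_rfl (1 / b) (by positivity) (by
    rw [div_le_one hb0]
    exact_mod_cast (by omega : 1 ≤ b)) 0 0 (Fin s → ℝ) (Measure.pi fun _ => volume.restrict (Set.Ico (0 : ℝ) 1))
    (fun k ξ i => ⌊((b ^ k : ℕ) : ℝ) * ξ i⌋₊ % b ^ k) (Filter.Eventually.of_forall fun k =>
      ⟨fun ξ i => Nat.mod_lt _ (hpos k), fun _ _ => 1 / (b : ℝ) ^ k, fun _ => exch_unif b hb k _ (fun v hv => rfl)
        (fun v => by positivity), fun v hv => by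
          rw [Pool.Agent.N84.MD.TT.unif_pi s (b ^ k) (hpos k) v hv, pow_zero, one_mul]
          push_cast
          exact le_rfl⟩)
  rw [← Measure.restrict_pi_pi, ← volume_pi, ae_restrict_iff' (MeasurableSet.univ_pi fun _ => measurableSet_Ico)] at h1
  filter_upwards [h1] with ξ hξ h2
  have h4 := hξ (fun i _ => ⟨(h2 i).1, (h2 i).2⟩)
  have h5 : (fun (k : ℕ) (i : Fin s) => ⌊((b ^ k : ℕ) : ℝ) * ξ i⌋₊ % b ^ k) =
      fun (k : ℕ) (i : Fin s) => ⌊(b : ℝ) ^ k * ξ i⌋₊ := by
    funext k i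
    have hbk : (0 : ℝ) < (b : ℝ) ^ k := by positivity
    have h6 := (h2 i).1
    have h7 := (h2 i).2
    push_cast
    refine Nat.mod_eq_of_lt ?_
    rw [Nat.floor_lt (by positivity)]
    push_cast
    nlinarith
  rw [h5] at h4
  exact h4

end Pool.Agent.Results.MP_dddec0_nt.AlmostEveryRealTuple
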