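import Pool.Agent.N220.CF.Q2

/-!
# Prime triples with shifts near linear forms in the convergents of almost every real number

For almost every real number `ξ`, all integers `κ₁, l₁, c₁, κ₂, l₂, c₂` with `κ₁ l₂ ≠ l₁ κ₂` and all but finitely many convergents
`p / q` of `ξ` (more generally all fractions with `|q ξ - p| ≤ b / q`): ALL integers `d` and `e` with `|d - (κ₁ q + l₁ p + c₁)| ≤
log ^ W q` and `|e - (κ₂ q + l₂ p + c₂)| ≤ log ^ W q` for which the triple `n, n + d, n + e` is admissible satisfy the law of Hardy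
and Littlewood at the scale `q`: in all windows of length at least `q / log ^ A q` up to `B q` the number of the `n` for which `n`,
`n + d` and `n + e` are primes is as expected.
-/

set_option autoImplicit false

namespace Pool.Agent.Results.MP_dddec0_nt.ConvergentTriples

open Finset Filter MeasureTheory
open Pool.Agent.N220.CF (Admissible HL triples_all)

/-- All admissible triples `n`, `n + d`, `n + e` with `d` near `κ₁ q + l₁ p + c₁` and `e` near `κ₂ q + l₂ p + c₂` satisfy the law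
of Hardy and Littlewood at the scale `q`. -/
def Law (κ₁ l₁ c₁ κ₂ l₂ c₂ : ℤ) (A B W : ℕ) (ε : ℝ) (p : ℤ) (q : ℕ) : Prop :=
  ∀ d e : ℤ, |(d : ℝ) - (κ₁ * q + l₁ * p + c₁)| ≤ Real.log q ^ W → |(e : ℝ) - (κ₂ * q + l₂ * p + c₂)| ≤ Real.log q ^ W →
    Admissible ![1, 1, 1] ![0, d, e] → HL ε A B q ![1, 1, 1] ![0, d, e]

/-- **Prime triples with shifts near linear forms in the convergents of almost every real number.** -/
theorem result :
    (∀ᵐ ξ : ℝ, ∀ (κ₁ l₁ c₁ κ₂ l₂ c₂ : ℤ) (A B W : ℕ) (ε : ℝ), κ₁ * l₂ - l₁ * κ₂ ≠ 0 → 0 < ε → ∀ b : ℝ,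
      {t : ℤ × ℕ | 1 ≤ t.2 ∧ |(t.2 : ℝ) * ξ - t.1| ≤ b / t.2 ∧ ¬ Law κ₁ l₁ c₁ κ₂ l₂ c₂ A B W ε t.1 t.2}.Finite) ∧
    ∀ᵐ ξ : ℝ, ∀ (κ₁ l₁ c₁ κ₂ l₂ c₂ : ℤ) (A B W : ℕ) (ε : ℝ), κ₁ * l₂ - l₁ * κ₂ ≠ 0 → 0 < ε →
      ∀ᶠ n : ℕ in atTop, Law κ₁ l₁ c₁ κ₂ l₂ c₂ A B W ε (ξ.convergent n).num (ξ.convergent n).den := by
  refine ⟨?_, ?_⟩
  · filter_upwards [triples_all.1] with ξ hξ κ₁ l₁ c₁ κ₂ l₂ c₂ A B W ε hd he b
    exact hξ 1 1 κ₁ l₁ c₁ κ₂ l₂ c₂ A B W ε hd he b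
  · filter_upwards [triples_all.2] with ξ hξ κ₁ l₁ c₁ κ₂ l₂ c₂ A B W ε hd he
    exact hξ 1 1 κ₁ l₁ c₁ κ₂ l₂ c₂ A B W ε hd he

end Pool.Agent.Results.MP_dddec0_nt.ConvergentTriples
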