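import Pool.Agent.N469.PT.Pal

/-!
# The asymptotic formula of Hardy and Littlewood for prime tuples, for palindromic shifts

Definitions used: `Pool.Agent.H373R2.T7.singZ a z`: the partial product over the primes `p ≤ z` of
`(1 - ν(p) / p) / (1 - 1 / p) ^ (s + 1)`, where `ν(p)` is the number of `r < p` for which `p` divides
`r (r + a 1) ... (r + a s)`; `Pool.Agent.H373R2.T7.tupleCount a N`: the sum of
`log p * ∏ i, log (p + a i)` over the primes `p ≤ N` for which all `p + a i` are primes;
`Pool.Agent.H373R2.T7.Admissible a`: for every prime `p` there is an `r` such that `p` divides neither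
`r` nor any `r + a i`; `Pool.Agent.H560R3.GB.primeTuples a N`: the number of primes `p ≤ N` for which
all `p + a i` are primes.

The proof replaces the von Mangoldt function by its sieve model in one coordinate after the other
(`Pool.Agent.TH890.os_diff`, starting files). The input is an estimate for one random shift, which follows from the
decay of the characteristic function of an integer whose digits depend on their mirror images
(`Pool.Agent.TH872.Mir.char_decay`, starting files).
-/

set_option autoImplicit false

namespace Pool.Agent.Results.MP_dddec0_nt.PalindromicShifts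

open Finset Pool.Agent.H560R3.GB
open Pool.Agent.H373R2.T7 (singZ tupleCount Admissible)

/-- The formula of Hardy and Littlewood for the shifts `a 1, ..., a s` and the primes up to `N`: the
singular series converges, its sum `S` predicts the weighted number of prime tuples with an error of
at most `N / log ^ U N`, and, if the shifts are admissible, `S` is positive and `S N / log ^ (s + 1) N`
predicts the number of prime tuples with a relative error of at most `ε`. -/
def Holds {s : ℕ} (ε : ℝ) (U N : ℕ) (a : Fin s → ℕ) : Prop :=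
  ∃ S : ℝ, Filter.Tendsto (fun z => singZ (fun i => (a i : ℤ)) z) Filter.atTop (nhds S) ∧
    |tupleCount (fun i => (a i : ℤ)) N - S * N| ≤ (N : ℝ) / Real.log N ^ U ∧
    (Admissible (fun i => (a i : ℤ)) → 0 < S ∧
      |(primeTuples a N : ℝ) - S * (N / Real.log N ^ (s + 1))| ≤ ε * (S * (N / Real.log N ^ (s + 1))))

open Classical in
/-- The palindromes with exactly `k` digits in base `b`: the integers `v` with `b ^ (k - 1) ≤ v < b ^ k`, whose digit
number `j` (which is `v / b ^ j % b`) is equal to the digit number `k - 1 - j`, for all `j < k`. -/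
noncomputable def palindromes (b k : ℕ) : Finset ℕ :=
  (range (b ^ k)).filter fun v => b ^ (k - 1) ≤ v ∧ ∀ j < k, v / b ^ j % b = v / b ^ (k - 1 - j) % b

/-- The numbers `w j a`, `j < k / 2`, are distributions of a pair `a` of digits in base `b`, and, for
`j ≥ 1`, two independent copies of the pair differ in BOTH digits with a probability of at least `η`. -/
structure Pairs (b k : ℕ) (η : ℝ) (w : ℕ → ℕ × ℕ → ℝ) : Prop where
  nonneg : ∀ j < k / 2, ∀ a, 0 ≤ w j a
  sum : ∀ j < k / 2, ∑ a ∈ range b ×ˢ range b, w j a = 1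
  differ : ∀ j < k / 2, 1 ≤ j → η ≤ ∑ a ∈ range b ×ˢ range b, ∑ a' ∈ range b ×ˢ range b,
    if a.1 ≠ a'.1 ∧ a.2 ≠ a'.2 then w j a * w j a' else 0

/-- The probability of the integer `v < b ^ k`, if for `j < k / 2` the pair formed by its digits number `j` and `k - 1 - j`
in base `b` is equal to `a` with probability `w j a`, if, for odd `k`, its middle digit is equal to `a` with
probability `u a`, and if the pairs and the middle digit are independent of each other. -/
noncomputable def weight (b k : ℕ) (w : ℕ → ℕ × ℕ → ℝ) (u : ℕ → ℝ) (v : ℕ) : ℝ :=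
  (∏ j ∈ range (k / 2), w j (v / b ^ j % b, v / b ^ (k - 1 - j) % b)) * (if k % 2 = 1 then u (v / b ^ (k / 2) % b) else 1)

open Classical in
/-- Let `s ≥ 1`, bases `b i ≥ 2`, factors `κ i ≥ 1` (`i < s`), `B`, `U`, `η > 0` and `ε > 0` be fixed. Let `N` be large, let
the numbers `k i` of digits satisfy `N / B ≤ b i ^ k i ≤ B N`, and let `0 ≤ c i ≤ B N` be arbitrary integers.

(1) Let `v 1, ..., v s` be independent random integers, `v i < b i ^ k i`, such that the pairs formed by the digits
number `j` and `k i - 1 - j` of `v i` in base `b i` are independent of each other for different `j`. Inside of a pair the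
digits may depend on each other in an arbitrary way; the distributions of the pairs are arbitrary, only two
independent copies of a pair (with `j ≥ 1`) should differ in both digits with a probability of at least `η`. Then, with a
probability of at least `1 - 1 / log ^ U N`, the formula of Hardy and Littlewood holds for the primes `p ≤ N` and the
tuple `p, p + c 1 + κ 1 * v 1, ..., p + c s + κ s * v s`.

(2) In particular it holds for all the vectors `(v 1, ..., v s)`, where `v i` is a palindrome with exactly `k i` digits in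
base `b i`, with the exception of a proportion of at most `1 / log ^ U N` of these vectors. -/
theorem result (s : ℕ) (hs : 1 ≤ s) (b : Fin s → ℕ) (hb : ∀ i, 2 ≤ b i) (κ : Fin s → ℕ) (hκ : ∀ i, 1 ≤ κ i)
    (B U : ℕ) (η ε : ℝ) (hη : 0 < η) (hε : 0 < ε) :
    ∃ N₀ : ℕ, ∀ N, N₀ ≤ N → ∀ k : Fin s → ℕ, (∀ i, b i ^ k i ≤ B * N ∧ N ≤ B * b i ^ k i) →
      ∀ c : Fin s → ℕ, (∀ i, c i ≤ B * N) →
      (∀ (w : Fin s → ℕ → ℕ × ℕ → ℝ) (u : Fin s → ℕ → ℝ), (∀ i, Pairs (b i) (k i) η (w i)) → (∀ i a, 0 ≤ u i a) →
        (∀ i, ∑ a ∈ range (b i), u i a = 1) →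
        ∑ v ∈ Fintype.piFinset (fun i => range (b i ^ k i)),
          (if Holds ε U N (fun i => c i + κ i * v i) then 0 else ∏ i, weight (b i) (k i) (w i) (u i) (v i)) ≤
            1 / Real.log N ^ U) ∧
      (((Fintype.piFinset fun i => palindromes (b i) (k i)).filter fun v =>
        ¬ Holds ε U N (fun i => c i + κ i * v i)).card : ℝ) ≤
        ((Fintype.piFinset fun i => palindromes (b i) (k i)).card : ℝ) / Real.log N ^ U := by
  have hb0 : ∀ i, (0 : ℝ) < b i := fun i => by exact_mod_cast (by have := hb i; omega : 0 < b i)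
  obtain ⟨N1, h1⟩ := Pool.Agent.N469.PT.ws_final s hs (fun i => Pool.Agent.N469.PT.Mc (b i) B η) κ hκ B U ε hε
    (fun i => Pool.Agent.N469.PT.mirror_one (b i) B (hb i) η hη (κ i) (hκ i) B _)
  obtain ⟨N2, h2⟩ := Pool.Agent.N469.PT.ws_final s hs (fun i => Pool.Agent.N469.PT.Mc (b i) B (1 / (b i : ℝ) ^ 2)) κ hκ B U ε hε
    (fun i => Pool.Agent.N469.PT.mirror_one (b i) B (hb i) (1 / (b i : ℝ) ^ 2) (by have := hb0 i; positivity) (κ i) (hκ i) B _)
  obtain ⟨Q, hQ⟩ : ∃ Q, Q = B * ∑ i, b i := ⟨_, rfl⟩
  refine ⟨N1 + N2 + Q + 1, fun N hN k hk c hc => ⟨?_, ?_⟩⟩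
  · intro w u hw hu0 hu1
    have h := h1 N (by omega) (fun i => range (b i ^ k i)) (fun i => weight (b i) (k i) (w i) (u i))
      (fun i => ⟨k i, w i, u i, (hk i).1, (hk i).2, ⟨(hw i).nonneg, (hw i).sum, (hw i).differ⟩, hu0 i, hu1 i, rfl, rfl⟩) c hc
    refine le_trans (le_of_eq ?_) h
    apply sum_congr rfl
    intro v _
    by_cases hH : Holds ε U N (fun i => c i + κ i * v i)
    · have hH' : ¬ ¬ Pool.Agent.W93.TD.HLs ε U N (fun i => c i + κ i * v i) := not_not.2 hH
      rw [if_pos hH, if_neg hH']
    · have hH' : ¬ Pool.Agent.W93.TD.HLs ε U N (fun i => c i + κ i * v i) := hH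
      rw [if_neg hH, if_pos hH']
  · have hk2 : ∀ i, 2 ≤ k i := by
      intro i
      by_contra hcon
      have h3 : b i ^ k i ≤ b i ^ 1 := Nat.pow_le_pow_right (by have := hb i; omega) (by omega)
      rw [pow_one] at h3
      have h4 : B * b i ^ k i ≤ B * ∑ i, b i := Nat.mul_le_mul_left _ (h3.trans (single_le_sum (fun _ _ => Nat.zero_le _) (mem_univ i)))
      have := (hk i).2
      omega
    have h := h2 N (by omega) (fun i => range (b i ^ k i))
      (fun i => Pool.Agent.N469.PT.weight (b i) (k i) (Pool.Agent.TH872.Mir.w0 (b i)) (fun _ => 1 / (b i : ℝ)))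
      (fun i => ⟨k i, _, _, (hk i).1, (hk i).2, Pool.Agent.TH872.Mir.w0_mirr (b i) (k i / 2) (hb i),
        fun _ => by have := hb0 i; positivity, by rw [sum_const, card_range, nsmul_eq_mul, mul_one_div, div_self (hb0 i).ne'], rfl, rfl⟩) c hc
    have h5 := Pool.Agent.N469.PT.pals_count s b k hb hk2 (fun v => ¬ Holds ε U N (fun i => c i + κ i * v i))
      (1 / Real.log N ^ U) (by
        refine le_trans (le_of_eq ?_) h
        apply sum_congr rfl
        intro v _
        by_cases hH : Holds ε U N (fun i => c i + κ i * v i)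
        · have hH' : ¬ ¬ Pool.Agent.W93.TD.HLs ε U N (fun i => c i + κ i * v i) := not_not.2 hH
          rw [if_neg (not_not.2 hH), if_neg hH']
        · have hH' : ¬ Pool.Agent.W93.TD.HLs ε U N (fun i => c i + κ i * v i) := hH
          rw [if_pos hH, if_pos hH'])
    have h6 : ∀ i, palindromes (b i) (k i) = Pool.Agent.TH872.Mir.Pals (b i) (k i) := by
      intro i
      ext v
      unfold palindromes Pool.Agent.TH872.Mir.Pals
      rw [mem_filter, mem_filter, mem_range]
      unfold Pool.Agent.TH872.Mir.IsPal
      exact ⟨fun h => ⟨h.1, h.2.1, h.1, h.2.2⟩, fun h => ⟨h.1, h.2.1, h.2.2.2⟩⟩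
    simp only [h6]
    rw [mul_one_div] at h5
    convert h5

end Pool.Agent.Results.MP_dddec0_nt.PalindromicShifts
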