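import Mathlib
import Pool.Agent.N419.GU.Fin

/-!
# Prime tuples or Goldbach's problem: a dichotomy at every scale

Let `N` be large and let `X` be the length of a window, `C ≤ X ≤ N / C`. Either EVERY finite set `V ⊆ [0, X]`
with at least `n₀` elements which misses a residue class modulo every prime contains the proportion
`(5 / 9) ^ k - ε` (and `2 / 3 - ε` for pairs) of `(k + 1)`-tuples `a` of distinct elements for which all the
patterns of primes among `m + a 0, ..., m + a k` occur for at least `N / (log N) ^ C₁` integers `m`,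
`|m| ≤ 2 * N`, or a positive proportion of the integers `m` at distance at most `C * X` from `N` have at least
`N / (log N) ^ C₁` representations `m = p + b * q` by primes, for every `b ≤ A` (Goldbach's problem for
`b = 1`), and the same holds for the constants `c` of the equations `a * p - b * q = c`, in every window.
Qualitatively: unless the sums `p + b * q` of primes have bounded gaps for every `b ≥ 1`, the prime tuples
conjecture holds for the proportion `(5 / 9) ^ k` of the tuples (for pairs `2 / 3`) of every large admissible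
set. The unconditional proportion is `(5 / 18) ^ k` (for pairs `1 / 3`).
-/

set_option autoImplicit false

namespace Pool.Agent.Results.MP_dddec0_nt.TuplesOrGoldbach

open Finset Filter

/-- `2 / 3` for pairs, `(5 / 9) ^ k` for the other `(k + 1)`-tuples -/
noncomputable def proportion (k : ℕ) : ℝ := if k = 1 then 2 / 3 else (5 / 9) ^ k

/-- the number of the integers `m`, `|m| ≤ R`, for which `m + a i` is a (positive) prime exactly for the
`i ∈ J` -/
noncomputable def patternCount {k : ℕ} (R : ℕ) (a : Fin (k + 1) → ℕ) (J : Finset (Fin (k + 1))) : ℕ :=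
  ((Icc (-(R : ℤ)) R).filter (fun m : ℤ => ∀ i, (m + a i).toNat.Prime ↔ i ∈ J)).card

/-- the number of primes `q` for which `m - b * q` is a (positive) prime -/
def sumCount (b m : ℕ) : ℕ := ((Icc 1 m).filter (fun q : ℕ => q.Prime ∧ (m - b * q).Prime)).card

open Classical in
/-- the number of primes `q ≤ N` for which there is a prime `p` with `a * p - b * q = c` -/
noncomputable def lineCount (N : ℕ) (a b c : ℤ) : ℕ :=
  ((Icc 1 N).filter (fun q : ℕ => q.Prime ∧ ∃ p : ℕ, p.Prime ∧ a * p - b * q = c)).card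

/-- `V` misses a residue class modulo every prime -/
def Admissible (V : Finset ℕ) : Prop := ∀ p : ℕ, p.Prime → ∃ r : ℕ, ∀ v ∈ V, ¬ v ≡ r [MOD p]

open Classical in
theorem result (k : ℕ) (ε : ℝ) (hε : 0 < ε) : ∃ n₀ C₁ : ℕ,
    (∀ A : ℕ, ∃ C : ℕ, ∀ᶠ N : ℕ in atTop, ∀ X : ℕ, C ≤ X → C * X ≤ N →
      (∀ V : Finset ℕ, (∀ v ∈ V, v ≤ X) → Admissible V → n₀ ≤ V.card →
        (proportion k - ε) * (V.card : ℝ) ^ (k + 1) ≤
          (((Fintype.piFinset (fun _ : Fin (k + 1) => V)).filter (fun a => Function.Injective a ∧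
            ∀ J : Finset (Fin (k + 1)), J.Nonempty →
              (N : ℝ) / (Real.log N) ^ C₁ ≤ patternCount (2 * N) a J)).card : ℝ)) ∨
      ((∀ b : ℕ, 1 ≤ b → b ≤ A → X ≤ C * ((Icc (N - C * X) (N + C * X)).filter
          (fun m : ℕ => (N : ℝ) / (Real.log N) ^ C₁ ≤ sumCount b m)).card) ∧
        ∀ a b : ℕ, 1 ≤ a → a ≤ A → 1 ≤ b → b ≤ A → a ≠ b → ∀ γ : ℤ, 100 * A * |γ| ≤ N →
          X ≤ C * ((Icc (γ - C * X) (γ + C * X)).filter
            (fun c : ℤ => (N : ℝ) / (Real.log N) ^ C₁ ≤ lineCount N a b c)).card)) ∧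
    ((∀ V : Finset ℕ, Admissible V → n₀ ≤ V.card →
        (proportion k - ε) * (V.card : ℝ) ^ (k + 1) ≤
          (((Fintype.piFinset (fun _ : Fin (k + 1) => V)).filter (fun a => Function.Injective a ∧
            ∀ J : Finset (Fin (k + 1)), J.Nonempty →
              {n : ℕ | ∀ i, (n + a i).Prime ↔ i ∈ J}.Infinite)).card : ℝ)) ∨
      ((∀ b : ℕ, 1 ≤ b → ∃ C : ℕ, ∀ᶠ n : ℕ in atTop, ∃ p q : ℕ, p.Prime ∧ q.Prime ∧
          p + b * q ≤ n + C ∧ n ≤ p + b * q + C) ∧
        ∀ a b : ℕ, 1 ≤ a → 1 ≤ b → a ≠ b → ∃ C : ℕ, ∀ γ : ℤ, ∃ c : ℤ, |c - γ| ≤ C ∧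
          {q : ℕ | q.Prime ∧ ∃ p : ℕ, p.Prime ∧ (a : ℤ) * p - b * q = c}.Infinite)) := by
  have hε' : 0 < ε / 2 ^ k := by positivity
  obtain ⟨n₀, C₁, h⟩ := Pool.Agent.N419.GU.main k (ε / 2 ^ k)
    (Pool.Agent.N419.GU.finHyp k (ε / 2 ^ k) hε')
  rw [Pool.Agent.N419.GU.dnn_two] at h
  refine ⟨n₀, C₁, fun A => ?_, Pool.Agent.N419.GU.qual k C₁ n₀ _ h⟩
  obtain ⟨C, -, hC⟩ := h A
  exact ⟨C, hC⟩

end Pool.Agent.Results.MP_dddec0_nt.TuplesOrGoldbach
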